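import Pool.Agent.Lib.MP_f7d7fe_co.Three

/-! The two types of layers. -/

namespace Pool.Agent.FS.LineTil

open Function Pool.Agent.Lib.MP_f7d7fe_co

/-- The fibre group. -/
abbrev A := ZMod 15

/-- Points of the fibre that are not shared. -/
def NS (a : A) : Prop := a ≠ 0 ∧ a ≠ 10

instance (a : A) : Decidable (NS a) := by unfold NS; infer_instance

/-- A layer type: a partition of the points that are not shared into cosets. -/
structure Lay {κ : Type} (τ : A → κ) : Prop where
  sur : ∀ j, ∃ a, NS a ∧ τ a = j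
  aff : ∀ a b, NS a → NS b → τ a = τ b → ∀ c, NS c → τ b = τ c →
    NS (a - b + c) ∧ τ (a - b + c) = τ a
  esc : ∀ a b, NS a → NS b → τ a ≠ τ b → ∃ k : A, ¬ NS (a + k * (b - a)) ∨
    ∃ u, (NS u ∧ τ u = τ (a + k * (b - a))) ∧
      ∃ l : A, ¬ NS (a + l * (u - a)) ∨ ¬ NS (b + l * (u - b))

/-- Four columns and a point. -/
def tC (a : A) : Fin 5 := ⟨a.val % 5, Nat.mod_lt _ (by norm_num)⟩

/-- One row and eight points. -/
def tR (a : A) : Fin 9 :=
  ⟨(609815916133357568 >>> (4 * a.val)) % 16 % 9, Nat.mod_lt _ (by norm_num)⟩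

theorem lay_tC : Lay tC := ⟨by decide +kernel, by decide +kernel, by decide +kernel⟩

theorem lay_tR : Lay tR := ⟨by decide +kernel, by decide +kernel, by decide +kernel⟩

end Pool.Agent.FS.LineTil
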