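import Pool.Agent.FS.LineTil.First

/-! The step: the old colouring on the odd layers, a layer type on the even layers. -/

namespace Pool.Agent.FS.LineTil

open Function Pool.Agent.Lib.MP_f7d7fe_co

/-- The invariant. -/
def Mk {ι : Type} (c : ℤ × A → ι) : Prop :=
  Good c ∧ (∀ x y, ¬ NS y.2 → (c x = c y ↔ x.2 = y.2)) ∧
    (∀ b, NS b → ∃ v w, c (v, b) ≠ c (w, b)) ∧ ∃ k : ℕ, ∀ t w a, c (t + 2 ^ k * w, a) = c (t, a)

/-- The new colouring. -/
def st {ι κ : Type} (c : ℤ × A → ι) (τ : A → κ) : ℤ × A → ι ⊕ κ :=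
  fun p => if p.1 % 2 = 0 ∧ NS p.2 then Sum.inr (τ p.2) else Sum.inl (c (p.1 / 2, p.2))

theorem prog {P : A → Prop} (hP : ∀ a b c, P a → P b → P c → P (a - b + c)) {a b : A} (ha : P a)
    (hb : P b) (k : A) : P (a + k * (b - a)) := by
  have : ∀ n : ℕ, P (a + (n : A) * (b - a)) := by
    intro n
    induction n with
    | zero => simpa using ha
    | succ n ih =>
      have := hP _ _ _ ih ha hb
      rwa [show a + (n : A) * (b - a) - a + b = a + ((n + 1 : ℕ) : A) * (b - a) by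
        push_cast; ring] at this
  have h := this k.val
  rwa [ZMod.natCast_zmod_val] at h

theorem mk_step {ι κ : Type} {c : ℤ × A → ι} {τ : A → κ} (hc : Mk c) (hτ : Lay τ) :
    Mk (st c τ) := by
  obtain ⟨⟨hsurj, haff, hirr⟩, hsh, hne, N, hper⟩ := hc
  have od : ∀ t a, st c τ (2 * t + 1, a) = Sum.inl (c (t, a)) := fun t a => by
    have h1 : ¬ (2 * t + 1) % 2 = 0 := by omega
    have h2 : (2 * t + 1) / 2 = t := by omega
    simp only [st, h1, h2, false_and, if_false]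
  have ev : ∀ t a, NS a → st c τ (2 * t, a) = Sum.inr (τ a) := fun t a ha => by
    have h1 : (2 * t) % 2 = 0 := by omega
    simp only [st, h1, ha, and_self, if_true]
  have sh : ∀ t u a, ¬ NS a → st c τ (t, a) = Sum.inl (c (u, a)) := fun t u a ha => by
    simp only [st, ha, and_false, if_false]
    exact congrArg Sum.inl ((hsh (t / 2, a) (u, a) ha).2 rfl)
  have cs : ∀ p : ℤ × A, ¬ NS p.2 ∨ (∃ t a, NS a ∧ p = (2 * t + 1, a)) ∨
      ∃ t a, NS a ∧ p = (2 * t, a) := fun ⟨t, a⟩ => by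
    by_cases ha : NS a
    · rcases Int.even_or_odd' t with ⟨s, rfl | rfl⟩
      · exact Or.inr (Or.inr ⟨s, a, ha, rfl⟩)
      · exact Or.inr (Or.inl ⟨s, a, ha, rfl⟩)
    · exact Or.inl ha
  have hsh' : ∀ x y : ℤ × A, ¬ NS y.2 → (st c τ x = st c τ y ↔ x.2 = y.2) := by
    rintro x ⟨u, b⟩ hb
    rw [sh u 0 b hb]
    rcases cs x with h | ⟨t, a, ha, rfl⟩ | ⟨t, a, ha, rfl⟩
    · obtain ⟨t, a⟩ := x
      rw [sh t 0 a h, Sum.inl.injEq]
      exact hsh _ _ hb
    · rw [od, Sum.inl.injEq]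
      exact hsh _ _ hb
    · rw [ev t a ha]
      exact ⟨fun h => absurd h (by simp), fun h => (hb (show NS b from (show a = b from h) ▸ ha)).elim⟩
  have e1 : ∀ (t u v : ℤ) (a b d : A), ((2 * t + 1, a) - (2 * u + 1, b) + (2 * v + 1, d) : ℤ × A)
      = (2 * (t - u + v) + 1, a - b + d) := fun t u v a b d =>
    Prod.ext (by simp only [Prod.fst_add, Prod.fst_sub]; ring) rfl
  have e2 : ∀ (t u v : ℤ) (a b d : A), ((2 * t, a) - (2 * u, b) + (2 * v, d) : ℤ × A)
      = (2 * (t - u + v), a - b + d) := fun t u v a b d =>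
    Prod.ext (by simp only [Prod.fst_add, Prod.fst_sub]; ring) rfl
  have e3 : ∀ (t u v : ℤ) (a b d : A), ((2 * t + 1, a) - (2 * u, b) + (2 * v, d) : ℤ × A)
      = (2 * (t - u + v) + 1, a - b + d) := fun t u v a b d =>
    Prod.ext (by simp only [Prod.fst_add, Prod.fst_sub]; ring) rfl
  have e4 : ∀ (t u v : ℤ) (a b d : A), ((2 * t + 1, a) - (2 * u + 1, b) + (2 * v, d) : ℤ × A)
      = (2 * (t - u + v), a - b + d) := fun t u v a b d =>
    Prod.ext (by simp only [Prod.fst_add, Prod.fst_sub]; ring) rfl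
  have ns : ∀ x y : ℤ × A, st c τ x = st c τ y → NS x.2 → NS y.2 := fun x y h hx => by
    by_contra hy
    exact hy ((hsh' x y hy).1 h ▸ hx)
  refine ⟨⟨?_, ?_, ?_⟩, hsh', fun b hb => ⟨2 * 0, 2 * 0 + 1, ?_⟩, N + 1, fun t w a => ?_⟩
  · rintro (i | j)
    · obtain ⟨⟨t, a⟩, rfl⟩ := hsurj i
      exact ⟨_, od t a⟩
    · obtain ⟨a, ha, rfl⟩ := hτ.sur j
      exact ⟨_, ev 0 a ha⟩
  · intro x y z hxy hyz
    rcases cs x with h | ⟨t, a, ha, rfl⟩ | ⟨t, a, ha, rfl⟩
    · have h1 := (hsh' y x h).1 hxy.symm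
      have h2 := (hsh' z x h).1 (hxy.trans hyz).symm
      refine (hsh' _ x h).2 ?_
      rw [Prod.snd_add, Prod.snd_sub, h1, h2, sub_add_cancel]
    · rcases cs y with h | ⟨u, b, hb, rfl⟩ | ⟨u, b, hb, rfl⟩
      · exact (h (ns _ _ hxy ha)).elim
      · rcases cs z with h | ⟨v, d, hd, rfl⟩ | ⟨v, d, hd, rfl⟩
        · exact (h (ns _ _ hyz hb)).elim
        · rw [od, od, Sum.inl.injEq] at hxy hyz
          rw [e1, od, od]
          exact congrArg Sum.inl (haff (t, a) (u, b) (v, d) hxy hyz)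
        · rw [od, ev v d hd] at hyz
          exact absurd hyz (by simp)
      · rw [od, ev u b hb] at hxy
        exact absurd hxy (by simp)
    · rcases cs y with h | ⟨u, b, hb, rfl⟩ | ⟨u, b, hb, rfl⟩
      · exact (h (ns _ _ hxy ha)).elim
      · rw [od, ev t a ha] at hxy
        exact absurd hxy (by simp)
      · rcases cs z with h | ⟨v, d, hd, rfl⟩ | ⟨v, d, hd, rfl⟩
        · exact (h (ns _ _ hyz hb)).elim
        · rw [od, ev u b hb] at hyz
          exact absurd hyz (by simp)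
        · rw [ev t a ha, ev u b hb, Sum.inr.injEq] at hxy
          rw [ev u b hb, ev v d hd, Sum.inr.injEq] at hyz
          obtain ⟨h1, h2⟩ := hτ.aff a b ha hb hxy d hd hyz
          rw [e2, ev _ _ h1, ev t a ha, h2]
  · intro I hI
    have hI1 : ∀ x y z, I (Sum.inl (c x)) → I (Sum.inl (c y)) → I (Sum.inl (c z)) →
        I (Sum.inl (c (x - y + z))) := by
      rintro ⟨t, a⟩ ⟨u, b⟩ ⟨v, d⟩ hx hy hz
      have := hI (2 * t + 1, a) (2 * u + 1, b) (2 * v + 1, d) (by rwa [od]) (by rwa [od])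
        (by rwa [od])
      rwa [e1, od] at this
    have n0 : ¬ NS 0 := fun h => h.1 rfl
    rcases hirr (fun i => I (Sum.inl i)) hI1 with hsub | hall
    · left
      have hb : ∀ i j, I (Sum.inl i) → I (Sum.inr j) → False := by
        intro i j hi hj
        obtain ⟨⟨v, b⟩, rfl⟩ := hsurj i
        obtain ⟨a, ha, rfl⟩ := hτ.sur j
        by_cases hb : NS b
        · have key : ∀ w, c (w, b) = c (v, b) := fun w => by
            have := hI (2 * v + 1, b) (2 * v, a) (2 * w, a) (by rwa [od]) (by rwa [ev v a ha])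
              (by rwa [ev w a ha])
            rw [e3, od, sub_self, zero_add, sub_add_cancel] at this
            exact hsub _ _ this hi
          obtain ⟨s, w, h⟩ := hne b hb
          exact h ((key s).trans (key w).symm)
        · have := hI (2 * v + 1, b) (2 * v, b) (2 * v, a) (by rwa [od]) (by rwa [sh _ v b hb])
            (by rwa [ev v a ha])
          rw [e3, od, sub_self, zero_add, sub_self, zero_add] at this
          exact hb (show NS b from (show a = b from (hsh (v, a) (v, b) hb).1 (hsub _ _ this hi)) ▸ ha)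
      have ha : ∀ j k, I (Sum.inr j) → I (Sum.inr k) → j = k := by
        intro j k hj hk
        by_contra hjk
        obtain ⟨a, ha, rfl⟩ := hτ.sur j
        obtain ⟨b, hb', rfl⟩ := hτ.sur k
        have hP : ∀ a b d : A, (NS a ∧ I (Sum.inr (τ a))) → (NS b ∧ I (Sum.inr (τ b))) →
            (NS d ∧ I (Sum.inr (τ d))) → (NS (a - b + d) ∧ I (Sum.inr (τ (a - b + d)))) := by
          intro a b d h1 h2 h3
          have := hI (2 * 0, a) (2 * 0, b) (2 * 0, d) (by rw [ev 0 a h1.1]; exact h1.2)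
            (by rw [ev 0 b h2.1]; exact h2.2) (by rw [ev 0 d h3.1]; exact h3.2)
          rw [e2] at this
          by_cases h4 : NS (a - b + d)
          · exact ⟨h4, by rwa [ev _ _ h4] at this⟩
          · rw [sh _ 0 _ h4] at this
            exact (hb _ _ this hj).elim
        obtain ⟨k, h⟩ := hτ.esc a b ha hb' hjk
        have h1 := prog hP ⟨ha, hj⟩ ⟨hb', hk⟩ k
        rcases h with h | ⟨u, ⟨h2, h3⟩, l, h4 | h4⟩
        · exact h h1.1
        · exact h4 (prog hP ⟨ha, hj⟩ ⟨h2, h3 ▸ h1.2⟩ l).1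
        · exact h4 (prog hP ⟨hb', hk⟩ ⟨h2, h3 ▸ h1.2⟩ l).1
      rintro (i | i) (j | j) hi hj
      · exact congrArg Sum.inl (hsub i j hi hj)
      · exact (hb i j hi hj).elim
      · exact (hb j i hj hi).elim
      · exact congrArg Sum.inr (ha i j hi hj)
    · right
      rintro (i | j)
      · exact hall i
      · obtain ⟨a, ha, rfl⟩ := hτ.sur j
        have := hI (2 * 0 + 1, a) (2 * 0 + 1, 0) (2 * 0, 0) (by rw [od]; exact hall _)
          (by rw [od]; exact hall _) (by rw [sh _ 0 _ n0]; exact hall _)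
        rwa [e4, sub_zero, sub_add_cancel, ev _ a ha] at this
  · rw [od, ev 0 b hb]
    simp
  · have h1 : (t + 2 ^ (N + 1) * w) % 2 = t % 2 := by
      rw [pow_succ, mul_right_comm]
      omega
    have h2 : (t + 2 ^ (N + 1) * w) / 2 = t / 2 + 2 ^ N * w := by
      rw [pow_succ, mul_right_comm]
      omega
    simp only [st, h1, h2, hper]

theorem mk_equiv {ι κ : Type} {c : ℤ × A → ι} (hc : Mk c) (e : ι ≃ κ) : Mk fun x => e (c x) := by
  obtain ⟨h1, h2, h3, k, h4⟩ := hc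
  refine ⟨good_equiv h1 e, fun x y hy => e.injective.eq_iff.trans (h2 x y hy), fun b hb => ?_, k,
    fun t w a => congrArg e (h4 t w a)⟩
  obtain ⟨v, w, h⟩ := h3 b hb
  exact ⟨v, w, fun h' => h (e.injective h')⟩

theorem mk_base : ∃ c : ℤ × A → Fin 16, Mk c := by
  let π : ℤ × A →+ ZMod 2 × A := (Int.castAddHom (ZMod 2)).prodMap (AddMonoidHom.id _)
  have hπ : Surjective π := fun ⟨a, k⟩ => by
    obtain ⟨t, rfl⟩ := ZMod.intCast_surjective a
    exact ⟨(t, k), rfl⟩
  refine ⟨fun x => cz (π x), good_comap cz_good π hπ, fun x y hy => cz_sh (π x) (π y) hy,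
    fun b hb => ⟨0, 1, ?_⟩, 1, fun t w a => congrArg cz (Prod.ext ?_ rfl)⟩
  · have := cz_ne b hb
    simpa [π] using this
  · show ((t + 2 ^ 1 * w : ℤ) : ZMod 2) = (t : ZMod 2)
    have : (2 : ZMod 2) = 0 := rfl
    push_cast
    rw [this]
    ring

theorem mk_all (a b : ℕ) : ∃ c : ℤ × A → Fin (16 + 9 * b + 5 * a), Mk c := by
  induction a with
  | zero =>
    induction b with
    | zero => exact mk_base
    | succ b ih =>
      obtain ⟨c, hc⟩ := ih
      exact ⟨_, mk_equiv (mk_step hc lay_tR) (finSumFinEquiv.trans (finCongr (by ring)))⟩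
  | succ a ih =>
    obtain ⟨c, hc⟩ := ih
    exact ⟨_, mk_equiv (mk_step hc lay_tC) (finSumFinEquiv.trans (finCongr (by ring)))⟩

theorem good_comap_per {G H ι : Type} [AddCommGroup G] [AddCommGroup H] {c : H → ι} (hc : Good c)
    (π : G →+ H) (hπ : ∀ x, ∃ g, ∀ y, c (y + π g) = c (y + x)) : Good fun x => c (π x) := by
  obtain ⟨hsurj, haff, hirr⟩ := hc
  refine ⟨fun i => ?_, fun x y z h1 h2 => ?_, fun I hI => hirr I fun x y z hx hy hz => ?_⟩
  · obtain ⟨x, rfl⟩ := hsurj i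
    obtain ⟨g, hg⟩ := hπ x
    exact ⟨g, by simpa using hg 0⟩
  · simp only [map_add, map_sub]
    exact haff _ _ _ h1 h2
  · obtain ⟨g1, h1⟩ := hπ x
    obtain ⟨g2, h2⟩ := hπ y
    obtain ⟨g3, h3⟩ := hπ z
    have a1 : c (π g1) = c x := by simpa using h1 0
    have a2 : c (π g2) = c y := by simpa using h2 0
    have a3 : c (π g3) = c z := by simpa using h3 0
    have := hI g1 g2 g3 (show I (c (π g1)) by rwa [a1]) (show I (c (π g2)) by rwa [a2])
      (show I (c (π g3)) by rwa [a3])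
    simp only [map_add, map_sub] at this
    rw [h3, show π g1 - π g2 + z = (z - π g2) + π g1 by abel, h1,
      show z - π g2 + x = (x - y + z - π g2) + y by abel, ← h2, sub_add_cancel] at this
    exact this

theorem exists_line (d : ℕ) (hd : 1 ≤ d) (n : ℕ) (hn : 48 ≤ n) :
    ∃ (c : (Fin d → ℤ) → Fin n) (K : AddSubgroup (Fin d → ℤ)),
      K.FiniteIndex ∧ Good c ∧ ∀ x, ∀ k ∈ K, c (x + k) = c x := by
  obtain ⟨a, b, rfl⟩ : ∃ a b, n = 16 + 9 * b + 5 * a :=
    ⟨(n - 16 - 9 * ((4 * (n - 16)) % 5)) / 5, (4 * (n - 16)) % 5, by omega⟩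
  obtain ⟨c, hc, -, -, N, hper⟩ := mk_all a b
  obtain ⟨e, rfl⟩ := Nat.exists_eq_add_of_le' hd
  let π : (Fin (e + 1) → ℤ) →+ ℤ × A :=
    { toFun := fun x => (x 0, (x 0 : A))
      map_zero' := by simp
      map_add' := fun x y => by simp }
  have hπ : ∀ x, ∃ g, ∀ y, c (y + π g) = c (y + x) := by
    rintro ⟨t, a⟩
    obtain ⟨w, hw⟩ := ZMod.intCast_surjective ((8 : A) ^ N * (a - (t : A)))
    refine ⟨fun _ => t + 2 ^ N * w, fun ⟨s, b⟩ => ?_⟩
    have h1 : ((t + 2 ^ N * w : ℤ) : A) = a := by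
      have h2 : (2 : A) * 8 = 1 := by decide
      push_cast
      rw [hw, ← mul_assoc, ← mul_pow, h2]
      ring
    show c (s + (t + 2 ^ N * w), b + ((t + 2 ^ N * w : ℤ) : A)) = c (s + t, b + a)
    rw [h1, ← add_assoc, hper]
  let ρ : (Fin (e + 1) → ℤ) →+ ZMod (2 ^ N * 15) :=
    { toFun := fun x => (x 0 : ZMod (2 ^ N * 15))
      map_zero' := by simp
      map_add' := fun x y => by simp }
  have : NeZero (2 ^ N * 15) := ⟨by positivity⟩
  refine ⟨fun x => c (π x), ρ.ker, inferInstance, good_comap_per hc π hπ, fun x k hk => ?_⟩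
  have h2 : ((k 0 : ℤ) : ZMod (2 ^ N * 15)) = 0 := hk
  obtain ⟨m, hm⟩ := (ZMod.intCast_zmod_eq_zero_iff_dvd _ _).1 h2
  have h3 : k 0 = 2 ^ N * (15 * m) := by
    rw [hm]
    push_cast
    ring
  have h4 : ((x 0 + k 0 : ℤ) : A) = (x 0 : A) := by
    have h5 : (15 : A) = 0 := rfl
    rw [h3]
    push_cast
    rw [h5]
    ring
  show c (x 0 + k 0, ((x 0 + k 0 : ℤ) : A)) = c (x 0, (x 0 : A))
  rw [h4, h3, hper]

end Pool.Agent.FS.LineTil
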